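import Mathlib
import Pool.Agent.H55.AE.Core

/-!
# The iterated equations for almost all exponents

Let `(a, b, c)` satisfy the hypotheses of the question. The `k`-th iterate of `q ↦ (b q + c) / a`
belongs to the equation `a^k p - b^k q = c (a^(k-1) + a^(k-2) b + ... + b^(k-1))`, which satisfies the
hypotheses as well. The library treats almost all `c`, or all `c` and a third of the `k`. Here the
triple is fixed and arbitrary, and the conclusion holds for almost all `k`: one of the equations with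
the exponents `k`, `2 k`, `3 k` (and `4 k`, if `3 ∣ a - b` and `3 ∤ c`) has at least `x / (log x)^C`
prime solutions with `q ≤ x`, for arbitrarily large `x`. More generally `{0, 1, 2, 3}` can be replaced
with any set `E` of exponents which satisfies a local condition.

The coloured Maynard-Tao theorem with the constant `18 / 5` (`Pool.Agent.Y827.RO.lamR0`), the lemma on
homothetic copies (`Pool.Agent.Y863.AA.copy`, from the density Hales-Jewett theorem) and the lemmas on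
rational iterates (`Pool.Agent.W25.IT.Rat`) are from the library.
-/

set_option autoImplicit false

namespace Pool.Agent.Results.MP_bf63dc_nt.AlmostAllExponents

open Finset Filter

/-- the hypotheses of the question -/
def Adm (a b : ℕ) (c : ℤ) : Prop :=
  1 ≤ a ∧ 1 ≤ b ∧ c ≠ 0 ∧ IsCoprime (a : ℤ) b ∧ IsCoprime (a : ℤ) c ∧ IsCoprime (b : ℤ) c ∧
    ¬ (Odd a ∧ Odd b ∧ Odd c)

/-- the number of the primes `q`, `y ≤ q ≤ x`, such that `a p - b q = c` with `p` prime -/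
noncomputable def count (a b : ℕ) (c : ℤ) (y x : ℝ) : ℕ :=
  {q : ℕ | (q.Prime ∧ ∃ p : ℕ, p.Prime ∧ (a : ℤ) * p - b * q = c) ∧ y ≤ q ∧ (q : ℝ) ≤ x}.ncard

/-- the right-hand side of the `j`-th iterated equation -/
def rhs (a b : ℕ) (c : ℤ) (j : ℕ) : ℤ := c * ∑ i ∈ range j, (a : ℤ) ^ i * (b : ℤ) ^ (j - 1 - i)

/-- `(a, b, c)` satisfies the hypotheses of the question and, for arbitrarily large `x`, there are at
least `x / (log x) ^ C` primes `q ≤ x` such that `a p - b q = c` with `p` prime -/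
def Good (C a b : ℕ) (c : ℤ) : Prop :=
  Adm a b c ∧ ∃ᶠ x : ℕ in atTop, (x : ℝ) / (Real.log x) ^ C ≤ (count a b c 0 x : ℝ)

/-- the local condition: for every prime `p ≥ 3` which divides `a - b` and not `c`, the numbers `e k`,
`e ∈ E`, miss a residue class modulo `p` -/
def Local (E : Finset ℕ) (a b : ℕ) (c : ℤ) (k : ℕ) : Prop :=
  ∀ p : ℕ, p.Prime → 3 ≤ p → (p : ℤ) ∣ (a : ℤ) - b → ¬ (p : ℤ) ∣ c →
    ∃ r : ℕ, ∀ e ∈ E, ¬ e * k ≡ r [MOD p]

/-- among the exponents `E` there are `M + 1` exponents such that for any two of them, `e < e'`, the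
`(e' - e) k`-th iterated equation is good -/
def Rich (C M : ℕ) (E : Finset ℕ) (a b : ℕ) (c : ℤ) (k : ℕ) : Prop :=
  ∃ F : Finset ℕ, F ⊆ E ∧ M + 1 ≤ F.card ∧ ∀ e ∈ F, ∀ e' ∈ F, e < e' →
    Good C (a ^ ((e' - e) * k)) (b ^ ((e' - e) * k)) (rhs a b c ((e' - e) * k))

/-- the same at the scale `X`, with the primes `q` between `X / B` and `X` -/
def RichAt (C M : ℕ) (E : Finset ℕ) (a b : ℕ) (c : ℤ) (k B X : ℕ) : Prop :=
  ∃ F : Finset ℕ, F ⊆ E ∧ M + 1 ≤ F.card ∧ ∀ e ∈ F, ∀ e' ∈ F, e < e' →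
    (X : ℝ) / (Real.log X) ^ C ≤
      (count (a ^ ((e' - e) * k)) (b ^ ((e' - e) * k)) (rhs a b c ((e' - e) * k)) (X / B) X : ℝ)

theorem par (a b : ℕ) (c : ℤ) : (Odd a ∧ Odd b ∧ Odd c) ↔ (Odd (a : ℤ) ∧ Odd (b : ℤ) ∧ Odd c) := by
  rw [Int.odd_coe_nat, Int.odd_coe_nat]

theorem adm_iter {a b : ℕ} {c : ℤ} (h : Adm a b c) {j : ℕ} (hj : 1 ≤ j) :
    Adm (a ^ j) (b ^ j) (rhs a b c j) := by
  obtain ⟨ha, hb, hc, hab, hac, hbc, hpar⟩ := h
  have ha' : (1 : ℤ) ≤ a := by exact_mod_cast ha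
  have hb' : (1 : ℤ) ≤ b := by exact_mod_cast hb
  obtain ⟨h1, h2⟩ := Pool.Agent.W25.IT.Rat.cj_coprime hab hac hbc hj
  refine ⟨Nat.one_le_pow _ _ ha, Nat.one_le_pow _ _ hb,
    Pool.Agent.W25.IT.Rat.cj_pos a b c ha' hb' hc hj, ?_, ?_, ?_, ?_⟩
  · push_cast
    exact hab.pow
  · push_cast
    exact h1
  · push_cast
    exact h2
  · rw [par, Nat.cast_pow, Nat.cast_pow]
    rw [par] at hpar
    exact Pool.Agent.W25.IT.Rat.cj_parity hpar hj

theorem count_eq (a b : ℕ) (c : ℤ) (j : ℕ) (y x : ℝ) :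
    count (a ^ j) (b ^ j) (rhs a b c j) y x = Pool.Agent.Y863.AR.cntR a b c j y x := by
  unfold count Pool.Agent.Y863.AR.cntR Pool.Agent.Y863.AR.PR
  push_cast
  rfl

theorem count_mono (a b : ℕ) (c : ℤ) {y y' x : ℝ} (h : y' ≤ y) : count a b c y x ≤ count a b c y' x :=
  Set.ncard_le_ncard (fun _ hq => ⟨hq.1, h.trans hq.2.1, hq.2.2⟩)
    ((Set.finite_le_nat ⌊x⌋₊).subset fun _ hq => Nat.le_floor hq.2.2)

open Classical in
/-- the statement at one scale -/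
theorem scale (T M : ℕ) (hTM : 18 * M < 5 * T) : ∃ C : ℕ, ∀ E : Finset ℕ, E.card = T →
    ∀ ε : ℝ, 0 < ε → ∃ L : ℕ, ∀ a b : ℕ, 1 ≤ a → 1 ≤ b → IsCoprime (a : ℤ) b →
    ∀ u H : ℕ, L ≤ H → ∃ B : ℕ, 1 ≤ B ∧ ∀ᶠ X : ℕ in atTop, ∀ c : ℤ, Adm a b c → (B : ℤ) * |c| ≤ X →
      (((Ioc u (u + H)).filter (fun k : ℕ => Local E a b c k ∧
        ¬ RichAt C M E a b c k B X)).card : ℝ) ≤ ε * H := by
  have hTM' : (18 / 5 : ℝ) * M < T := by
    have h1 : ((18 * M : ℕ) : ℝ) < ((5 * T : ℕ) : ℝ) := by exact_mod_cast hTM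
    push_cast at h1
    linarith
  obtain ⟨C, hC⟩ := Pool.Agent.H55.AE.coreK T M hTM'
  refine ⟨C, fun E hE ε hε => ?_⟩
  obtain ⟨L, hL⟩ := hC (univ.sup (E.orderEmbOfFin hE)) (E.orderEmbOfFin hE)
    (E.orderEmbOfFin hE).strictMono (fun g => le_sup (mem_univ g)) ε hε
  refine ⟨L, fun a b ha hb hab u H hH => ?_⟩
  obtain ⟨B, hB, h⟩ := hL a b ha hb hab u H hH
  refine ⟨B, hB, ?_⟩
  filter_upwards [h] with X hX c hc hBc
  obtain ⟨ha', hb', hc0, hab', hac, hbc, hpar⟩ := id hc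
  rw [par] at hpar
  refine le_trans ?_ (hX c hc0 ⟨hac, hbc, hpar⟩ hBc)
  rw [Nat.cast_le]
  refine card_le_card_of_injOn (fun k : ℕ => (k : ℤ)) ?_ (fun _ _ _ _ h => Nat.cast_injective h)
  intro k hk
  obtain ⟨h1, h2, h3⟩ := mem_filter.1 (mem_coe.1 hk)
  have h1' := mem_Ioc.1 h1
  have h4 : ((k : ℤ)).toNat = k := Int.toNat_natCast k
  rw [mem_coe, mem_filter]
  refine ⟨?_, ?_, ?_⟩
  · rw [mem_Ioc]
    show (u : ℤ) < (k : ℤ) ∧ (k : ℤ) ≤ u + H
    constructor <;> omega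
  · intro p hp hp3 hpd hpc
    obtain ⟨r, hr⟩ := h2 p hp hp3 hpd hpc
    refine ⟨r, fun g => ?_⟩
    simp only [h4]
    exact hr _ (E.orderEmbOfFin_mem hE g)
  · rintro ⟨S, hS, hcl⟩
    apply h3
    refine ⟨S.map (E.orderEmbOfFin hE).toEmbedding, ?_, ?_, ?_⟩
    · intro x hx
      obtain ⟨g, _, rfl⟩ := mem_map.1 hx
      exact E.orderEmbOfFin_mem hE g
    · rw [card_map]; exact hS
    · intro x hx y hy hxy
      obtain ⟨g, hg, rfl⟩ := mem_map.1 hx
      obtain ⟨g', hg', rfl⟩ := mem_map.1 hy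
      have hgg : g < g' := (E.orderEmbOfFin hE).lt_iff_lt.1 hxy
      have h5 := hcl g hg g' hg' hgg
      simp only [h4] at h5
      rw [count_eq]
      exact h5

open Classical in
/-- from all large scales to infinitely many solutions -/
theorem infin {C M : ℕ} {E : Finset ℕ} {a b : ℕ} {c : ℤ} (hc : Adm a b c) {u H B : ℕ} {ε : ℝ}
    (h : ∀ᶠ X : ℕ in atTop, ∀ c : ℤ, Adm a b c → (B : ℤ) * |c| ≤ X →
      (((Ioc u (u + H)).filter (fun k : ℕ => Local E a b c k ∧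
        ¬ RichAt C M E a b c k B X)).card : ℝ) ≤ ε * H) :
    (((Ioc u (u + H)).filter (fun k : ℕ => Local E a b c k ∧ ¬ Rich C M E a b c k)).card : ℝ) ≤
      ε * H := by
  -- the pairs which are not good are not good at any large scale
  have hev : ∀ᶠ X : ℕ in atTop, ∀ k ∈ Ioc u (u + H), ∀ e ∈ E, ∀ e' ∈ E, e < e' →
      ¬ Good C (a ^ ((e' - e) * k)) (b ^ ((e' - e) * k)) (rhs a b c ((e' - e) * k)) →
      ¬ ((X : ℝ) / (Real.log X) ^ C ≤ (count (a ^ ((e' - e) * k)) (b ^ ((e' - e) * k))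
        (rhs a b c ((e' - e) * k)) (X / B) X : ℝ)) := by
    rw [eventually_all_finset]
    intro k hk
    rw [eventually_all_finset]
    intro e he
    rw [eventually_all_finset]
    intro e' he'
    by_cases hlt : e < e'
    · by_cases hg : Good C (a ^ ((e' - e) * k)) (b ^ ((e' - e) * k)) (rhs a b c ((e' - e) * k))
      · filter_upwards with X _ hng
        exact absurd hg hng
      · have hk1 : 1 ≤ (e' - e) * k := by
          have := (mem_Ioc.1 hk).1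
          exact Nat.mul_pos (by omega) (by omega)
        have h1 : ¬ ∃ᶠ x : ℕ in atTop, (x : ℝ) / (Real.log x) ^ C ≤
            (count (a ^ ((e' - e) * k)) (b ^ ((e' - e) * k)) (rhs a b c ((e' - e) * k)) 0 x : ℝ) :=
          fun h2 => hg ⟨adm_iter hc hk1, h2⟩
        rw [not_frequently] at h1
        filter_upwards [h1] with X hX _ _ h3
        apply hX
        refine h3.trans ?_
        rw [Nat.cast_le]
        exact count_mono _ _ _ (by positivity)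
    · filter_upwards with X hlt'
      exact absurd hlt' hlt
  obtain ⟨X, h1, h2, h3⟩ := (h.and (hev.and (eventually_ge_atTop (B * c.natAbs)))).exists
  refine le_trans ?_ (h1 c hc ?_)
  · rw [Nat.cast_le]
    apply card_le_card
    intro k hk
    obtain ⟨h4, h5, h6⟩ := mem_filter.1 hk
    refine mem_filter.2 ⟨h4, h5, ?_⟩
    rintro ⟨F, hF, hF1, hF2⟩
    apply h6
    refine ⟨F, hF, hF1, fun e he e' he' hlt => ?_⟩
    by_contra hng
    exact h2 k h4 e (hF he) e' (hF he') hlt hng (hF2 e he e' he' hlt)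
  · rw [Int.abs_eq_natAbs]
    exact_mod_cast h3

/-- the local condition holds for the primes which are larger than the number of the exponents -/
theorem local_card {E : Finset ℕ} {p : ℕ} (hp : E.card < p) (k : ℕ) :
    ∃ r : ℕ, ∀ e ∈ E, ¬ e * k ≡ r [MOD p] := by
  by_contra hcon
  push Not at hcon
  have h1 : (range p) ⊆ E.image (fun e => e * k % p) := by
    intro r hr
    obtain ⟨e, he, hm⟩ := hcon r
    refine mem_image.2 ⟨e, he, ?_⟩
    have h2 : e * k % p = r % p := hm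
    rw [h2]
    exact Nat.mod_eq_of_lt (mem_range.1 hr)
  have h2 := card_le_card h1
  rw [card_range] at h2
  have h3 := h2.trans card_image_le
  omega

theorem local_four {e₁ e₂ : ℕ} (a b : ℕ) (c : ℤ) (k : ℕ)
    (h3 : (3 : ℤ) ∣ (a : ℤ) - b → ¬ (3 : ℤ) ∣ c → 3 ∣ e₁ ∧ e₂ = e₁ + 1) :
    Local {0, 1, e₁, e₂} a b c k := by
  intro p hp hp3 hpd hpc
  by_cases h5 : 5 ≤ p
  · exact local_card (lt_of_le_of_lt card_le_four h5) k
  · have hp4 : p ≠ 4 := by
      rintro rfl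
      revert hp
      decide
    have hpe : p = 3 := by omega
    subst hpe
    obtain ⟨⟨t, rfl⟩, rfl⟩ := h3 (by exact_mod_cast hpd) (by exact_mod_cast hpc)
    refine ⟨if k % 3 = 2 then 1 else 2, fun e he => ?_⟩
    have hmod : e * k % 3 = 0 ∨ e * k % 3 = k % 3 := by
      simp only [mem_insert, mem_singleton] at he
      rcases he with rfl | rfl | rfl | rfl
      · left; simp
      · right; rw [one_mul]
      · left
        rw [mul_assoc]
        exact Nat.mul_mod_right 3 _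
      · right
        have : (3 * t + 1) * k = k + 3 * (t * k) := by ring
        rw [this]
        exact Nat.add_mul_mod_self_left _ _ _
    intro hcon
    have hcon' : e * k % 3 = (if k % 3 = 2 then 1 else 2) % 3 := hcon
    split_ifs at hcon' <;> omega

open Classical in
/-- `4` if `3` divides `a - b` and not `c`, otherwise `3` -/
noncomputable def R (a b : ℕ) (c : ℤ) : ℕ := if (3 : ℤ) ∣ (a : ℤ) - b ∧ ¬ (3 : ℤ) ∣ c then 4 else 3

open Classical in
theorem result :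
    -- general sets of exponents
    (∀ T M : ℕ, 18 * M < 5 * T → ∃ C : ℕ, ∀ E : Finset ℕ, E.card = T →
      ∀ ε : ℝ, 0 < ε → ∃ L : ℕ, ∀ a b : ℕ,
      (∀ c : ℤ, Adm a b c → ∀ u H : ℕ, L ≤ H →
        (((Ioc u (u + H)).filter (fun k : ℕ => Local E a b c k ∧
          ¬ Rich C M E a b c k)).card : ℝ) ≤ ε * H) ∧
      ∀ u H : ℕ, L ≤ H → ∃ B : ℕ, 1 ≤ B ∧ ∀ᶠ X : ℕ in atTop, ∀ c : ℤ, Adm a b c →
        (B : ℤ) * |c| ≤ X → (((Ioc u (u + H)).filter (fun k : ℕ => Local E a b c k ∧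
          ¬ RichAt C M E a b c k B X)).card : ℝ) ≤ ε * H) ∧
    -- three consecutive multiples
    ∃ C : ℕ, ∀ ε : ℝ, 0 < ε → ∃ L : ℕ, ∀ a b : ℕ,
      (∀ c : ℤ, Adm a b c → ∀ u H : ℕ, L ≤ H →
        (((Ioc u (u + H)).filter (fun k : ℕ => ¬ ∃ j : ℕ, 1 ≤ j ∧ j ≤ R a b c ∧
          Good C (a ^ (j * k)) (b ^ (j * k)) (rhs a b c (j * k)))).card : ℝ) ≤ ε * H) ∧
      ∀ u H : ℕ, L ≤ H → ∃ B : ℕ, 1 ≤ B ∧ ∀ᶠ X : ℕ in atTop, ∀ c : ℤ, Adm a b c →
        (B : ℤ) * |c| ≤ X → (((Ioc u (u + H)).filter (fun k : ℕ => ¬ ∃ j : ℕ, 1 ≤ j ∧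
          j ≤ R a b c ∧ (X : ℝ) / (Real.log X) ^ C ≤
            (count (a ^ (j * k)) (b ^ (j * k)) (rhs a b c (j * k)) (X / B) X : ℝ))).card : ℝ) ≤
          ε * H := by
  have hgen : ∀ T M : ℕ, 18 * M < 5 * T → ∃ C : ℕ, ∀ E : Finset ℕ, E.card = T →
      ∀ ε : ℝ, 0 < ε → ∃ L : ℕ, ∀ a b : ℕ,
      (∀ c : ℤ, Adm a b c → ∀ u H : ℕ, L ≤ H →
        (((Ioc u (u + H)).filter (fun k : ℕ => Local E a b c k ∧
          ¬ Rich C M E a b c k)).card : ℝ) ≤ ε * H) ∧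
      ∀ u H : ℕ, L ≤ H → ∃ B : ℕ, 1 ≤ B ∧ ∀ᶠ X : ℕ in atTop, ∀ c : ℤ, Adm a b c →
        (B : ℤ) * |c| ≤ X → (((Ioc u (u + H)).filter (fun k : ℕ => Local E a b c k ∧
          ¬ RichAt C M E a b c k B X)).card : ℝ) ≤ ε * H := by
    intro T M hTM
    obtain ⟨C, hC⟩ := scale T M hTM
    refine ⟨C, fun E hE ε hε => ?_⟩
    obtain ⟨L, hL⟩ := hC E hE ε hε
    refine ⟨L, fun a b => ⟨fun c hc u H hH => ?_, fun u H hH => ?_⟩⟩
    · obtain ⟨B, -, h⟩ := hL a b hc.1 hc.2.1 hc.2.2.2.1 u H hH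
      exact infin hc h
    · by_cases hab : 1 ≤ a ∧ 1 ≤ b ∧ IsCoprime (a : ℤ) b
      · exact hL a b hab.1 hab.2.1 hab.2.2 u H hH
      · refine ⟨1, le_refl _, Eventually.of_forall fun X c hc => ?_⟩
        exact absurd ⟨hc.1, hc.2.1, hc.2.2.2.1⟩ hab
  refine ⟨hgen, ?_⟩
  obtain ⟨C, hC⟩ := hgen 4 1 (by norm_num)
  refine ⟨C, fun ε hε => ?_⟩
  obtain ⟨L₁, hL₁⟩ := hC {0, 1, 2, 3} (by decide) ε hε
  obtain ⟨L₂, hL₂⟩ := hC {0, 1, 3, 4} (by decide) ε hε
  -- two exponents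
  have key : ∀ (P : ℕ → Prop) (E : Finset ℕ) (m k : ℕ), (∀ e ∈ E, e ≤ m) →
      (∃ F : Finset ℕ, F ⊆ E ∧ 1 + 1 ≤ F.card ∧ ∀ e ∈ F, ∀ e' ∈ F, e < e' → P ((e' - e) * k)) →
      ∃ j : ℕ, 1 ≤ j ∧ j ≤ m ∧ P (j * k) := by
    rintro P E m k hE ⟨F, hF, hF1, hF2⟩
    obtain ⟨x, hx, y, hy, hxy⟩ := one_lt_card.1 (by omega : 1 < F.card)
    rcases lt_or_gt_of_ne hxy with hlt | hlt
    · have := hE y (hF hy)
      exact ⟨y - x, by omega, by omega, hF2 x hx y hy hlt⟩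
    · have := hE x (hF hx)
      exact ⟨x - y, by omega, by omega, hF2 y hy x hx hlt⟩
  refine ⟨max L₁ L₂, fun a b => ⟨fun c hc u H hH => ?_, fun u H hH => ?_⟩⟩
  · by_cases h3 : (3 : ℤ) ∣ (a : ℤ) - b ∧ ¬ (3 : ℤ) ∣ c
    · refine le_trans ?_ ((hL₂ a b).1 c hc u H ((le_max_right _ _).trans hH))
      rw [Nat.cast_le]
      apply card_le_card
      intro k hk
      obtain ⟨h4, h5⟩ := mem_filter.1 hk
      refine mem_filter.2 ⟨h4, local_four a b c k fun _ _ => ⟨dvd_refl _, rfl⟩, fun h6 => h5 ?_⟩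
      obtain ⟨j, hj1, hj2, hj3⟩ := key (fun j => Good C (a ^ j) (b ^ j) (rhs a b c j))
        {0, 1, 3, 4} 4 k (by decide) h6
      exact ⟨j, hj1, by rw [R, if_pos h3]; exact hj2, hj3⟩
    · refine le_trans ?_ ((hL₁ a b).1 c hc u H ((le_max_left _ _).trans hH))
      rw [Nat.cast_le]
      apply card_le_card
      intro k hk
      obtain ⟨h4, h5⟩ := mem_filter.1 hk
      refine mem_filter.2 ⟨h4, local_four a b c k fun h7 h8 => absurd ⟨h7, h8⟩ h3,
        fun h6 => h5 ?_⟩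
      obtain ⟨j, hj1, hj2, hj3⟩ := key (fun j => Good C (a ^ j) (b ^ j) (rhs a b c j))
        {0, 1, 2, 3} 3 k (by decide) h6
      exact ⟨j, hj1, by rw [R, if_neg h3]; exact hj2, hj3⟩
  · obtain ⟨B₁, hB₁, h1⟩ := (hL₁ a b).2 u H ((le_max_left _ _).trans hH)
    obtain ⟨B₂, hB₂, h2⟩ := (hL₂ a b).2 u H ((le_max_right _ _).trans hH)
    refine ⟨max B₁ B₂, le_max_of_le_left hB₁, ?_⟩
    have hmono : ∀ {B : ℕ} (_ : 1 ≤ B) (_ : B ≤ max B₁ B₂) (X : ℕ),
        (X : ℝ) / ((max B₁ B₂ : ℕ) : ℝ) ≤ (X : ℝ) / (B : ℝ) := by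
      intro B hB hBB X
      apply div_le_div_of_nonneg_left (Nat.cast_nonneg _)
      · exact_mod_cast hB
      · exact_mod_cast hBB
    filter_upwards [h1, h2] with X hX1 hX2 c hc hBc
    have habs : (0 : ℤ) ≤ |c| := abs_nonneg c
    by_cases h3 : (3 : ℤ) ∣ (a : ℤ) - b ∧ ¬ (3 : ℤ) ∣ c
    · have h9 : (B₂ : ℤ) * |c| ≤ X := by
        refine le_trans (mul_le_mul_of_nonneg_right ?_ habs) hBc
        exact_mod_cast le_max_right B₁ B₂
      refine le_trans ?_ (hX2 c hc h9)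
      rw [Nat.cast_le]
      apply card_le_card
      intro k hk
      obtain ⟨h4, h5⟩ := mem_filter.1 hk
      refine mem_filter.2 ⟨h4, local_four a b c k fun _ _ => ⟨dvd_refl _, rfl⟩, fun h6 => h5 ?_⟩
      obtain ⟨j, hj1, hj2, hj3⟩ := key (fun j => (X : ℝ) / (Real.log X) ^ C ≤
          (count (a ^ j) (b ^ j) (rhs a b c j) (X / B₂) X : ℝ)) {0, 1, 3, 4} 4 k (by decide) h6
      refine ⟨j, hj1, by rw [R, if_pos h3]; exact hj2, hj3.trans ?_⟩
      rw [Nat.cast_le]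
      exact count_mono _ _ _ (hmono hB₂ (le_max_right _ _) X)
    · have h9 : (B₁ : ℤ) * |c| ≤ X := by
        refine le_trans (mul_le_mul_of_nonneg_right ?_ habs) hBc
        exact_mod_cast le_max_left B₁ B₂
      refine le_trans ?_ (hX1 c hc h9)
      rw [Nat.cast_le]
      apply card_le_card
      intro k hk
      obtain ⟨h4, h5⟩ := mem_filter.1 hk
      refine mem_filter.2 ⟨h4, local_four a b c k fun h7 h8 => absurd ⟨h7, h8⟩ h3,
        fun h6 => h5 ?_⟩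
      obtain ⟨j, hj1, hj2, hj3⟩ := key (fun j => (X : ℝ) / (Real.log X) ^ C ≤
          (count (a ^ j) (b ^ j) (rhs a b c j) (X / B₁) X : ℝ)) {0, 1, 2, 3} 3 k (by decide) h6
      refine ⟨j, hj1, by rw [R, if_neg h3]; exact hj2, hj3.trans ?_⟩
      rw [Nat.cast_le]
      exact count_mono _ _ _ (hmono hB₁ (le_max_left _ _) X)

end Pool.Agent.Results.MP_bf63dc_nt.AlmostAllExponents
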