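import Mathlib
import Pool.Agent.H55.PC.Prog

/-!
# One of the first three iterated equations for almost all prime constants

Let `a, b ≥ 1` be coprime. The iterates of `q ↦ (b q + c) / a` belong to the equations
`a^j p - b^j q = c (a^(j-1) + a^(j-2) b + ... + b^(j-1))`, which satisfy the hypotheses of the question
if `(a, b, c)` does. It is known (library) that one of the equations with `j = 1, 2, 3` (and `j = 4`, if
`3 ∣ a - b` and `3 ∤ c`) has infinitely many prime solutions for all `c` outside a set of density zero.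
Here `c` is restricted to sparse sets of constants: the primes `c`, more generally the numbers
`c = κ l + h` with `l` prime, and even more generally with `l` such that the values `f_i(l)` of
arbitrary distinct irreducible polynomials without fixed prime divisor have no prime factors
`≤ l ^ (1 / r)`. In all short intervals `(Z, Z + Z ^ θ]` all but an arbitrarily small proportion of the
expected number of the `l` are good.

Proof. The set of the bad constants of a given pair `(a, b)` contains no long arithmetic progressions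
(`Pool.Agent.H55.PC.coreP`, from the coloured Maynard-Tao theorem with the constant `18 / 5` of the
library, `Pool.Agent.Y827.RO.lamR0`, and van der Waerden's theorem); and sets without long arithmetic
progressions contain few of the `l` (`Pool.Agent.Y677.RSZ.narrow`, library).
-/

set_option autoImplicit false

namespace Pool.Agent.Results.MP_bf63dc_nt.AlmostAllPrimeConstants

open Finset Filter Polynomial

/-- the hypotheses of the question -/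
def Adm (a b : ℕ) (c : ℤ) : Prop :=
  1 ≤ a ∧ 1 ≤ b ∧ c ≠ 0 ∧ IsCoprime (a : ℤ) b ∧ IsCoprime (a : ℤ) c ∧ IsCoprime (b : ℤ) c ∧
    ¬ (Odd a ∧ Odd b ∧ Odd c)

/-- the number of the primes `q`, `y ≤ q ≤ x`, such that `a p - b q = c` with `p` prime -/
noncomputable def count (a b : ℕ) (c : ℤ) (y x : ℝ) : ℕ :=
  {q : ℕ | (q.Prime ∧ ∃ p : ℕ, p.Prime ∧ (a : ℤ) * p - b * q = c) ∧ y ≤ q ∧ (q : ℝ) ≤ x}.ncard

/-- the right-hand side of the `j`-th iterated equation -/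
def rhs (a b : ℕ) (c : ℤ) (j : ℕ) : ℤ := c * ∑ i ∈ range j, (a : ℤ) ^ i * (b : ℤ) ^ (j - 1 - i)

/-- `(a, b, c)` satisfies the hypotheses of the question and, for arbitrarily large `x`, there are at
least `x / (log x) ^ C` primes `q ≤ x` such that `a p - b q = c` with `p` prime -/
def Good (C a b : ℕ) (c : ℤ) : Prop :=
  Adm a b c ∧ ∃ᶠ x : ℕ in atTop, (x : ℝ) / (Real.log x) ^ C ≤ (count a b c 0 x : ℝ)

/-- the local condition: for every prime `p ≥ 3` which divides `a - b` and not `c`, the numbers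
`e ∈ E` miss a residue class modulo `p` -/
def Local (E : Finset ℕ) (a b : ℕ) (c : ℤ) : Prop :=
  ∀ p : ℕ, p.Prime → 3 ≤ p → (p : ℤ) ∣ (a : ℤ) - b → ¬ (p : ℤ) ∣ c →
    ∃ r : ℕ, ∀ e ∈ E, ¬ e ≡ r [MOD p]

/-- among the exponents `E` there are `M + 1` exponents such that for any two of them, `e < e'`, the
`(e' - e)`-th iterated equation is good -/
def Rich (C M : ℕ) (E : Finset ℕ) (a b : ℕ) (c : ℤ) : Prop :=
  ∃ F : Finset ℕ, F ⊆ E ∧ M + 1 ≤ F.card ∧ ∀ e ∈ F, ∀ e' ∈ F, e < e' →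
    Good C (a ^ (e' - e)) (b ^ (e' - e)) (rhs a b c (e' - e))

/-- the same at the scale `X`, with the primes `q` between `X / B` and `X` -/
def RichAt (C M : ℕ) (E : Finset ℕ) (a b : ℕ) (c : ℤ) (B X : ℕ) : Prop :=
  ∃ F : Finset ℕ, F ⊆ E ∧ M + 1 ≤ F.card ∧ ∀ e ∈ F, ∀ e' ∈ F, e < e' →
    (X : ℝ) / (Real.log X) ^ C ≤
      (count (a ^ (e' - e)) (b ^ (e' - e)) (rhs a b c (e' - e)) (X / B) X : ℝ)

/-- finitely many distinct irreducible polynomials with positive leading coefficients whose product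
has no fixed prime divisor -/
def System {ι : Type} (f : ι → ℤ[X]) : Prop :=
  (∀ i, Irreducible (f i)) ∧ (∀ i, 0 < (f i).natDegree) ∧ (∀ i, 0 < (f i).leadingCoeff) ∧
    Function.Injective f ∧ ∀ p : ℕ, p.Prime → ∃ m : ℕ, ∀ i, ¬ (p : ℤ) ∣ (f i).eval (m : ℤ)

/-- the values of the polynomials at `m` have no prime factors `≤ m ^ (1 / r)` -/
def RoughValues {ι : Type} (f : ι → ℤ[X]) (r m : ℕ) : Prop :=
  ∀ i, ∀ p : ℕ, p.Prime → (p : ℤ) ∣ (f i).eval (m : ℤ) → (m : ℝ) ^ (1 / (r : ℝ)) < (p : ℝ)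

open Classical in
/-- `4` if `3` divides `a - b` and not `c`, otherwise `3` -/
noncomputable def R (a b : ℕ) (c : ℤ) : ℕ := if (3 : ℤ) ∣ (a : ℤ) - b ∧ ¬ (3 : ℤ) ∣ c then 4 else 3

theorem par (a b : ℕ) (c : ℤ) : (Odd a ∧ Odd b ∧ Odd c) ↔ (Odd (a : ℤ) ∧ Odd (b : ℤ) ∧ Odd c) := by
  rw [Int.odd_coe_nat, Int.odd_coe_nat]

theorem adm_iter {a b : ℕ} {c : ℤ} (h : Adm a b c) {j : ℕ} (hj : 1 ≤ j) :
    Adm (a ^ j) (b ^ j) (rhs a b c j) := by
  obtain ⟨ha, hb, hc, hab, hac, hbc, hpar⟩ := h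
  have ha' : (1 : ℤ) ≤ a := by exact_mod_cast ha
  have hb' : (1 : ℤ) ≤ b := by exact_mod_cast hb
  obtain ⟨h1, h2⟩ := Pool.Agent.W25.IT.Rat.cj_coprime hab hac hbc hj
  refine ⟨Nat.one_le_pow _ _ ha, Nat.one_le_pow _ _ hb,
    Pool.Agent.W25.IT.Rat.cj_pos a b c ha' hb' hc hj, ?_, ?_, ?_, ?_⟩
  · push_cast
    exact hab.pow
  · push_cast
    exact h1
  · push_cast
    exact h2
  · rw [par, Nat.cast_pow, Nat.cast_pow]
    rw [par] at hpar
    exact Pool.Agent.W25.IT.Rat.cj_parity hpar hj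

theorem count_eq (a b : ℕ) (c : ℤ) (j : ℕ) (y x : ℝ) :
    count (a ^ j) (b ^ j) (rhs a b c j) y x = Pool.Agent.Y863.AR.cntR a b c j y x := by
  unfold count Pool.Agent.Y863.AR.cntR Pool.Agent.Y863.AR.PR
  push_cast
  rfl

theorem count_mono (a b : ℕ) (c : ℤ) {y y' x : ℝ} (h : y' ≤ y) : count a b c y x ≤ count a b c y' x :=
  Set.ncard_le_ncard (fun _ hq => ⟨hq.1, h.trans hq.2.1, hq.2.2⟩)
    ((Set.finite_le_nat ⌊x⌋₊).subset fun _ hq => Nat.le_floor hq.2.2)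

/-- a constant which is not rich at a scale is bad for the core theorem -/
theorem bad_of {T : ℕ} {C M : ℕ} {E : Finset ℕ} (hE : E.card = T) {a b : ℕ} {c : ℤ} {B X : ℕ}
    (hc : Adm a b c) (hl : Local E a b c) (hB : (B : ℤ) * |c| ≤ X) (hn : ¬ RichAt C M E a b c B X) :
    Pool.Agent.H55.PC.BadC M (E.orderEmbOfFin hE) a b C B X c := by
  obtain ⟨ha, hb, hc0, hab, hac, hbc, hpar⟩ := id hc
  rw [par] at hpar
  refine ⟨⟨hac, hbc, hpar⟩, hc0, ?_, hB, ?_⟩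
  · intro p hp hp3 hpd hpc
    obtain ⟨r, hr⟩ := hl p hp hp3 hpd hpc
    exact ⟨r, fun g => hr _ (E.orderEmbOfFin_mem hE g)⟩
  · rintro ⟨S, hS, hcl⟩
    apply hn
    refine ⟨S.map (E.orderEmbOfFin hE).toEmbedding, ?_, ?_, ?_⟩
    · intro x hx
      obtain ⟨g, _, rfl⟩ := mem_map.1 hx
      exact E.orderEmbOfFin_mem hE g
    · rw [card_map]; exact hS
    · intro x hx y hy hxy
      obtain ⟨g, hg, rfl⟩ := mem_map.1 hx
      obtain ⟨g', hg', rfl⟩ := mem_map.1 hy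
      have hgg : g < g' := (E.orderEmbOfFin hE).lt_iff_lt.1 hxy
      rw [count_eq]
      exact hcl g hg g' hg' hgg

theorem richAt_mono {C M : ℕ} {E : Finset ℕ} {a b : ℕ} {c : ℤ} {B B' X : ℕ} (hB : 1 ≤ B)
    (hBB : B ≤ B') (h : RichAt C M E a b c B X) : RichAt C M E a b c B' X := by
  obtain ⟨F, hF, hF1, hF2⟩ := h
  refine ⟨F, hF, hF1, fun e he e' he' hlt => (hF2 e he e' he' hlt).trans ?_⟩
  rw [Nat.cast_le]
  apply count_mono
  apply div_le_div_of_nonneg_left (Nat.cast_nonneg _)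
  · exact_mod_cast hB
  · exact_mod_cast hBB

open Classical in
/-- the statement at one scale -/
theorem scale (T M : ℕ) (hTM : 18 * M < 5 * T) : ∃ C : ℕ, ∀ E : Finset ℕ, E.card = T →
    ∀ a b : ℕ, 1 ≤ a → 1 ≤ b → IsCoprime (a : ℤ) b → ∀ κ : ℕ, 1 ≤ κ → ∀ h : ℤ,
    ∃ B : ℕ, 1 ≤ B ∧ ∀ (ι : Type) [Fintype ι] [Nonempty ι] (f : ι → ℤ[X]), System f →
    ∀ θ : ℝ, 0 < θ → ∀ r : ℕ, 2 ≤ r → ∀ ε : ℝ, 0 < ε → ∃ Z₀ : ℕ, 1 ≤ Z₀ ∧
    ∀ X Z Y : ℕ, Z₀ ≤ Z → B * Z ≤ X → (Z : ℝ) ^ θ ≤ Y → Y ≤ Z →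
      (((Ioc Z (Z + Y)).filter (fun m : ℕ => RoughValues f r m ∧ Adm a b (κ * m + h) ∧
        Local E a b (κ * m + h) ∧ ¬ RichAt C M E a b (κ * m + h) B X)).card : ℝ) ≤
      ε * Y / Real.log Z ^ (Fintype.card ι) := by
  have hTM' : (18 / 5 : ℝ) * M < T := by
    have h1 : ((18 * M : ℕ) : ℝ) < ((5 * T : ℕ) : ℝ) := by exact_mod_cast hTM
    push_cast at h1
    linarith
  obtain ⟨C, hC⟩ := Pool.Agent.H55.PC.progP T M hTM'
  refine ⟨C, fun E hE a b ha hb hab κ hκ h => ?_⟩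
  obtain ⟨B, X₁, hB, hH⟩ := hC (univ.sup (E.orderEmbOfFin hE)) (E.orderEmbOfFin hE)
    (E.orderEmbOfFin hE).strictMono (fun g => le_sup (mem_univ g)) a b ha hb hab
  have hBle : B ≤ B * (2 * κ + h.natAbs) := Nat.le_mul_of_pos_right _ (by omega)
  refine ⟨B * (2 * κ + h.natAbs), hB.trans hBle, fun ι _ _ f hf θ hθ r hr ε hε => ?_⟩
  obtain ⟨Z₀, hZ0, hZ₀⟩ := hH ι f ⟨hf.1, hf.2.1, hf.2.2.1, hf.2.2.2.1, hf.2.2.2.2⟩ κ hκ h θ hθ r hr ε hε
  refine ⟨Z₀ + X₁, by omega, fun X Z Y hZ hX hY1 hY2 => ?_⟩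
  have hZX : Z ≤ X := le_trans (Nat.le_mul_of_pos_left _ (hB.trans hBle)) hX
  refine le_trans ?_ (hZ₀ X (by omega) Z (by omega) Y hY1 hY2)
  rw [Nat.cast_le]
  apply card_le_card
  intro m hm
  obtain ⟨h1, h2, h3, h4, h5⟩ := mem_filter.1 hm
  have h1' := mem_Ioc.1 h1
  refine mem_filter.2 ⟨h1, h2, bad_of hE h3 h4 ?_ fun h6 => h5 (richAt_mono hB hBle h6)⟩
  have h7 : |(κ : ℤ) * m + h| ≤ ((2 * κ + h.natAbs) * Z : ℕ) := by
    have e1 : |(κ : ℤ) * m + h| ≤ |(κ : ℤ) * m| + |h| := abs_add_le _ _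
    have e2 : |(κ : ℤ) * m| ≤ ((2 * κ * Z : ℕ) : ℤ) := by
      rw [abs_of_nonneg (by positivity)]
      have : κ * m ≤ 2 * κ * Z := by
        calc κ * m ≤ κ * (2 * Z) := Nat.mul_le_mul_left _ (by omega)
          _ = 2 * κ * Z := by ring
      exact_mod_cast this
    have e3 : |h| ≤ ((h.natAbs * Z : ℕ) : ℤ) := by
      rw [Int.abs_eq_natAbs]
      exact_mod_cast Nat.le_mul_of_pos_right _ (by omega : 0 < Z)
    calc |(κ : ℤ) * m + h| ≤ ((2 * κ * Z : ℕ) : ℤ) + ((h.natAbs * Z : ℕ) : ℤ) := by linarith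
      _ = _ := by push_cast; ring
  calc (B : ℤ) * |(κ : ℤ) * m + h| ≤ B * ((2 * κ + h.natAbs) * Z : ℕ) :=
        mul_le_mul_of_nonneg_left h7 (Nat.cast_nonneg _)
    _ = ((B * (2 * κ + h.natAbs) * Z : ℕ) : ℤ) := by push_cast; ring
    _ ≤ X := by exact_mod_cast hX

open Classical in
/-- from all large scales to infinitely many solutions -/
theorem infin {C M : ℕ} {E : Finset ℕ} {a b B : ℕ} {κ : ℕ} {h : ℤ} {Z Y : ℕ} {δ : ℝ}
    (Q : ℕ → Prop) (hs : ∀ X : ℕ, B * Z ≤ X →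
      (((Ioc Z (Z + Y)).filter (fun m : ℕ => Q m ∧ Adm a b (κ * m + h) ∧
        Local E a b (κ * m + h) ∧ ¬ RichAt C M E a b (κ * m + h) B X)).card : ℝ) ≤ δ) :
    (((Ioc Z (Z + Y)).filter (fun m : ℕ => Q m ∧ Adm a b (κ * m + h) ∧
        Local E a b (κ * m + h) ∧ ¬ Rich C M E a b (κ * m + h))).card : ℝ) ≤ δ := by
  -- the pairs which are not good are not good at any large scale
  have hev : ∀ᶠ X : ℕ in atTop, ∀ m ∈ Ioc Z (Z + Y), ∀ e ∈ E, ∀ e' ∈ E, e < e' →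
      Adm a b (κ * m + h) →
      ¬ Good C (a ^ (e' - e)) (b ^ (e' - e)) (rhs a b (κ * m + h) (e' - e)) →
      ¬ ((X : ℝ) / (Real.log X) ^ C ≤ (count (a ^ (e' - e)) (b ^ (e' - e))
        (rhs a b (κ * m + h) (e' - e)) (X / B) X : ℝ)) := by
    rw [eventually_all_finset]
    intro m hm
    rw [eventually_all_finset]
    intro e he
    rw [eventually_all_finset]
    intro e' he'
    by_cases hlt : e < e'
    · by_cases hg : Good C (a ^ (e' - e)) (b ^ (e' - e)) (rhs a b (κ * m + h) (e' - e))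
      · filter_upwards with X _ _ hng
        exact absurd hg hng
      · by_cases hadm : Adm a b (κ * m + h)
        · have h1 : ¬ ∃ᶠ x : ℕ in atTop, (x : ℝ) / (Real.log x) ^ C ≤
              (count (a ^ (e' - e)) (b ^ (e' - e)) (rhs a b (κ * m + h) (e' - e)) 0 x : ℝ) :=
            fun h2 => hg ⟨adm_iter hadm (by omega), h2⟩
          rw [not_frequently] at h1
          filter_upwards [h1] with X hX _ _ _ h3
          apply hX
          refine h3.trans ?_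
          rw [Nat.cast_le]
          exact count_mono _ _ _ (by positivity)
        · filter_upwards with X _ hadm'
          exact absurd hadm' hadm
    · filter_upwards with X hlt'
      exact absurd hlt' hlt
  obtain ⟨X, h2, h3⟩ := (hev.and (eventually_ge_atTop (B * Z))).exists
  refine le_trans ?_ (hs X h3)
  rw [Nat.cast_le]
  apply card_le_card
  intro m hm
  obtain ⟨h4, h5, h6, h7, h8⟩ := mem_filter.1 hm
  refine mem_filter.2 ⟨h4, h5, h6, h7, ?_⟩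
  rintro ⟨F, hF, hF1, hF2⟩
  apply h8
  refine ⟨F, hF, hF1, fun e he e' he' hlt => ?_⟩
  by_contra hng
  exact h2 m h4 e (hF he) e' (hF he') hlt h6 hng (hF2 e he e' he' hlt)

/-- the local condition holds for the primes which are larger than the number of the exponents -/
theorem local_card {E : Finset ℕ} {p : ℕ} (hp : E.card < p) : ∃ r : ℕ, ∀ e ∈ E, ¬ e ≡ r [MOD p] := by
  by_contra hcon
  push Not at hcon
  have h1 : (range p) ⊆ E.image (fun e => e % p) := by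
    intro r hr
    obtain ⟨e, he, hm⟩ := hcon r
    refine mem_image.2 ⟨e, he, ?_⟩
    have h2 : e % p = r % p := hm
    rw [h2]
    exact Nat.mod_eq_of_lt (mem_range.1 hr)
  have h2 := card_le_card h1
  rw [card_range] at h2
  have h3 := h2.trans card_image_le
  omega

theorem local_three {E : Finset ℕ} (hE : E.card ≤ 4) (a b : ℕ) (c : ℤ)
    (h3 : (3 : ℤ) ∣ (a : ℤ) - b → ¬ (3 : ℤ) ∣ c → ∃ r : ℕ, ∀ e ∈ E, ¬ e ≡ r [MOD 3]) :
    Local E a b c := by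
  intro p hp hp3 hpd hpc
  by_cases h5 : 5 ≤ p
  · exact local_card (lt_of_le_of_lt hE h5)
  · have hp4 : p ≠ 4 := by
      rintro rfl
      revert hp
      decide
    have hpe : p = 3 := by omega
    subst hpe
    exact h3 (by exact_mod_cast hpd) (by exact_mod_cast hpc)

theorem two_of (P : ℕ → Prop) (E : Finset ℕ) (m : ℕ) (hE : ∀ e ∈ E, e ≤ m)
    (h : ∃ F : Finset ℕ, F ⊆ E ∧ 1 + 1 ≤ F.card ∧ ∀ e ∈ F, ∀ e' ∈ F, e < e' → P (e' - e)) :
    ∃ j : ℕ, 1 ≤ j ∧ j ≤ m ∧ P j := by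
  obtain ⟨F, hF, hF1, hF2⟩ := h
  obtain ⟨x, hx, y, hy, hxy⟩ := one_lt_card.1 (by omega : 1 < F.card)
  rcases lt_or_gt_of_ne hxy with hlt | hlt
  · have := hE y (hF hy)
    exact ⟨y - x, by omega, by omega, hF2 x hx y hy hlt⟩
  · have := hE x (hF hx)
    exact ⟨x - y, by omega, by omega, hF2 y hy x hx hlt⟩

/-- the identity polynomial is a system -/
theorem system_X : System (fun _ : Unit => (X : ℤ[X])) := by
  refine ⟨fun _ => irreducible_X, fun _ => by simp, fun _ => by simp, fun _ _ _ => rfl, ?_⟩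
  intro p hp
  refine ⟨1, fun _ h => ?_⟩
  simp only [eval_X, Nat.cast_one] at h
  exact hp.one_lt.ne' (Nat.dvd_one.1 (by exact_mod_cast h))

/-- primes are rough -/
theorem rough_prime {m : ℕ} (hm : m.Prime) : RoughValues (fun _ : Unit => (X : ℤ[X])) 2 m := by
  intro _ p hp h
  simp only [eval_X] at h
  have h1 : p = m := (Nat.prime_dvd_prime_iff_eq hp hm).1 (by exact_mod_cast h)
  rw [h1]
  have h2 : (1 : ℝ) < m := by exact_mod_cast hm.one_lt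
  calc (m : ℝ) ^ (1 / ((2 : ℕ) : ℝ)) < (m : ℝ) ^ (1 : ℝ) :=
        Real.rpow_lt_rpow_of_exponent_lt h2 (by norm_num)
    _ = m := Real.rpow_one _

open Classical in
theorem result :
    -- sets of exponents, constants with rough values
    (∀ T M : ℕ, 18 * M < 5 * T → ∃ C : ℕ, ∀ E : Finset ℕ, E.card = T → ∀ a b κ : ℕ, 1 ≤ κ →
      ∀ h : ℤ, ∃ B : ℕ, 1 ≤ B ∧ ∀ (ι : Type) [Fintype ι] [Nonempty ι] (f : ι → ℤ[X]), System f →
      ∀ θ : ℝ, 0 < θ → ∀ r : ℕ, 2 ≤ r → ∀ ε : ℝ, 0 < ε → ∃ Z₀ : ℕ, ∀ Z Y : ℕ, Z₀ ≤ Z →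
      (Z : ℝ) ^ θ ≤ Y → Y ≤ Z →
      (((Ioc Z (Z + Y)).filter (fun m : ℕ => RoughValues f r m ∧ Adm a b (κ * m + h) ∧
          Local E a b (κ * m + h) ∧ ¬ Rich C M E a b (κ * m + h))).card : ℝ) ≤
        ε * Y / Real.log Z ^ (Fintype.card ι) ∧
      ∀ X : ℕ, B * Z ≤ X →
        (((Ioc Z (Z + Y)).filter (fun m : ℕ => RoughValues f r m ∧ Adm a b (κ * m + h) ∧
          Local E a b (κ * m + h) ∧ ¬ RichAt C M E a b (κ * m + h) B X)).card : ℝ) ≤
        ε * Y / Real.log Z ^ (Fintype.card ι)) ∧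
    -- the first three equations, constants `κ l + h` with primes `l`
    ∃ C : ℕ, ∀ a b κ : ℕ, 1 ≤ κ → ∀ h : ℤ, ∃ B : ℕ, 1 ≤ B ∧ ∀ θ : ℝ, 0 < θ → ∀ ε : ℝ, 0 < ε →
      ∃ Z₀ : ℕ, ∀ Z Y : ℕ, Z₀ ≤ Z → (Z : ℝ) ^ θ ≤ Y → Y ≤ Z →
      (((Ioc Z (Z + Y)).filter (fun l : ℕ => l.Prime ∧ Adm a b (κ * l + h) ∧
          ¬ ∃ j : ℕ, 1 ≤ j ∧ j ≤ R a b (κ * l + h) ∧
            Good C (a ^ j) (b ^ j) (rhs a b (κ * l + h) j))).card : ℝ) ≤ ε * Y / Real.log Z ∧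
      ∀ X : ℕ, B * Z ≤ X →
        (((Ioc Z (Z + Y)).filter (fun l : ℕ => l.Prime ∧ Adm a b (κ * l + h) ∧
          ¬ ∃ j : ℕ, 1 ≤ j ∧ j ≤ R a b (κ * l + h) ∧ (X : ℝ) / (Real.log X) ^ C ≤
            (count (a ^ j) (b ^ j) (rhs a b (κ * l + h) j) (X / B) X : ℝ))).card : ℝ) ≤
          ε * Y / Real.log Z := by
  have hgen : ∀ T M : ℕ, 18 * M < 5 * T → ∃ C : ℕ, ∀ E : Finset ℕ, E.card = T →
      ∀ a b κ : ℕ, 1 ≤ κ →
      ∀ h : ℤ, ∃ B : ℕ, 1 ≤ B ∧ ∀ (ι : Type) [Fintype ι] [Nonempty ι] (f : ι → ℤ[X]), System f →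
      ∀ θ : ℝ, 0 < θ → ∀ r : ℕ, 2 ≤ r → ∀ ε : ℝ, 0 < ε → ∃ Z₀ : ℕ, ∀ Z Y : ℕ, Z₀ ≤ Z →
      (Z : ℝ) ^ θ ≤ Y → Y ≤ Z →
      (((Ioc Z (Z + Y)).filter (fun m : ℕ => RoughValues f r m ∧ Adm a b (κ * m + h) ∧
          Local E a b (κ * m + h) ∧ ¬ Rich C M E a b (κ * m + h))).card : ℝ) ≤
        ε * Y / Real.log Z ^ (Fintype.card ι) ∧
      ∀ X : ℕ, B * Z ≤ X →
        (((Ioc Z (Z + Y)).filter (fun m : ℕ => RoughValues f r m ∧ Adm a b (κ * m + h) ∧
          Local E a b (κ * m + h) ∧ ¬ RichAt C M E a b (κ * m + h) B X)).card : ℝ) ≤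
        ε * Y / Real.log Z ^ (Fintype.card ι) := by
    intro T M hTM
    obtain ⟨C, hC⟩ := scale T M hTM
    refine ⟨C, fun E hE a b κ hκ h => ?_⟩
    by_cases hab : 1 ≤ a ∧ 1 ≤ b ∧ IsCoprime (a : ℤ) b
    · obtain ⟨B, hB, hH⟩ := hC E hE a b hab.1 hab.2.1 hab.2.2 κ hκ h
      refine ⟨B, hB, fun ι _ _ f hf θ hθ r hr ε hε => ?_⟩
      obtain ⟨Z₀, -, hZ₀⟩ := hH ι f hf θ hθ r hr ε hε
      refine ⟨Z₀, fun Z Y hZ hY1 hY2 => ?_⟩
      have hall : ∀ X : ℕ, B * Z ≤ X →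
          (((Ioc Z (Z + Y)).filter (fun m : ℕ => RoughValues f r m ∧ Adm a b (κ * m + h) ∧
            Local E a b (κ * m + h) ∧ ¬ RichAt C M E a b (κ * m + h) B X)).card : ℝ) ≤
          ε * Y / Real.log Z ^ (Fintype.card ι) := fun X hX => hZ₀ X Z Y hZ hX hY1 hY2
      exact ⟨infin (RoughValues f r) hall, hall⟩
    · refine ⟨1, le_rfl, fun ι _ _ f hf θ hθ r hr ε hε => ⟨0, fun Z Y _ _ _ => ?_⟩⟩
      have hlog : (0 : ℝ) ≤ Real.log Z := Real.log_natCast_nonneg Z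
      have hnn : (0 : ℝ) ≤ ε * Y / Real.log Z ^ (Fintype.card ι) := by positivity
      constructor
      · refine le_trans (le_of_eq ?_) hnn
        rw [Nat.cast_eq_zero, card_eq_zero, filter_eq_empty_iff]
        rintro m - ⟨-, h1, -⟩
        exact hab ⟨h1.1, h1.2.1, h1.2.2.2.1⟩
      · intro X _
        refine le_trans (le_of_eq ?_) hnn
        rw [Nat.cast_eq_zero, card_eq_zero, filter_eq_empty_iff]
        rintro m - ⟨-, h1, -⟩
        exact hab ⟨h1.1, h1.2.1, h1.2.2.2.1⟩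
  refine ⟨hgen, ?_⟩
  obtain ⟨C, hC⟩ := hgen 4 1 (by norm_num)
  refine ⟨C, fun a b κ hκ h => ?_⟩
  obtain ⟨B₁, hB₁, hH₁⟩ := hC {0, 1, 2, 3} (by decide) a b κ hκ h
  obtain ⟨B₂, hB₂, hH₂⟩ := hC {0, 1, 3, 4} (by decide) a b κ hκ h
  refine ⟨max B₁ B₂, le_max_of_le_left hB₁, fun θ hθ ε hε => ?_⟩
  obtain ⟨Z₁, hZ₁⟩ := hH₁ Unit (fun _ => X) system_X θ hθ 2 le_rfl (ε / 2) (by positivity)
  obtain ⟨Z₂, hZ₂⟩ := hH₂ Unit (fun _ => X) system_X θ hθ 2 le_rfl (ε / 2) (by positivity)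
  refine ⟨max Z₁ Z₂, fun Z Y hZ hY1 hY2 => ?_⟩
  obtain ⟨h1, h1'⟩ := hZ₁ Z Y ((le_max_left _ _).trans hZ) hY1 hY2
  obtain ⟨h2, h2'⟩ := hZ₂ Z Y ((le_max_right _ _).trans hZ) hY1 hY2
  have hcard : ∀ (s s₁ s₂ : Finset ℕ), s ⊆ s₁ ∪ s₂ →
      (s₁.card : ℝ) ≤ ε / 2 * Y / Real.log Z ^ (Fintype.card Unit) →
      (s₂.card : ℝ) ≤ ε / 2 * Y / Real.log Z ^ (Fintype.card Unit) →
      (s.card : ℝ) ≤ ε * Y / Real.log Z := by
    intro s s₁ s₂ hs hs₁ hs₂
    have e1 : (s.card : ℝ) ≤ s₁.card + s₂.card := by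
      exact_mod_cast (card_le_card hs).trans (card_union_le _ _)
    have e2 : ε * Y / Real.log Z = ε / 2 * Y / Real.log Z ^ (Fintype.card Unit) +
        ε / 2 * Y / Real.log Z ^ (Fintype.card Unit) := by
      rw [Fintype.card_unit, pow_one]; ring
    rw [e2]
    linarith
  constructor
  · refine hcard _ _ _ ?_ h1 h2
    intro l hl
    obtain ⟨h3, h4, h5, h6⟩ := mem_filter.1 hl
    rw [mem_union, mem_filter, mem_filter]
    by_cases h7 : (3 : ℤ) ∣ (a : ℤ) - b ∧ ¬ (3 : ℤ) ∣ κ * l + h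
    · right
      refine ⟨h3, rough_prime h4, h5, local_three (by decide) a b _ fun _ _ => ⟨2, by decide⟩,
        fun h8 => h6 ?_⟩
      obtain ⟨j, hj1, hj2, hj3⟩ := two_of (fun j => Good C (a ^ j) (b ^ j)
        (rhs a b (κ * l + h) j)) {0, 1, 3, 4} 4 (by decide) h8
      exact ⟨j, hj1, by rw [R, if_pos h7]; exact hj2, hj3⟩
    · left
      refine ⟨h3, rough_prime h4, h5, local_three (by decide) a b _
        fun h9 h10 => absurd ⟨h9, h10⟩ h7, fun h8 => h6 ?_⟩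
      obtain ⟨j, hj1, hj2, hj3⟩ := two_of (fun j => Good C (a ^ j) (b ^ j)
        (rhs a b (κ * l + h) j)) {0, 1, 2, 3} 3 (by decide) h8
      exact ⟨j, hj1, by rw [R, if_neg h7]; exact hj2, hj3⟩
  · intro X hX
    have hX1 : B₁ * Z ≤ X := le_trans (Nat.mul_le_mul_right _ (le_max_left _ _)) hX
    have hX2 : B₂ * Z ≤ X := le_trans (Nat.mul_le_mul_right _ (le_max_right _ _)) hX
    have hmono : ∀ {B : ℕ} (_ : 1 ≤ B) (_ : B ≤ max B₁ B₂),
        (X : ℝ) / ((max B₁ B₂ : ℕ) : ℝ) ≤ (X : ℝ) / (B : ℝ) := by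
      intro B hB hBB
      apply div_le_div_of_nonneg_left (Nat.cast_nonneg _)
      · exact_mod_cast hB
      · exact_mod_cast hBB
    refine hcard _ _ _ ?_ (h1' X hX1) (h2' X hX2)
    intro l hl
    obtain ⟨h3, h4, h5, h6⟩ := mem_filter.1 hl
    rw [mem_union, mem_filter, mem_filter]
    by_cases h7 : (3 : ℤ) ∣ (a : ℤ) - b ∧ ¬ (3 : ℤ) ∣ κ * l + h
    · right
      refine ⟨h3, rough_prime h4, h5, local_three (by decide) a b _ fun _ _ => ⟨2, by decide⟩,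
        fun h8 => h6 ?_⟩
      obtain ⟨j, hj1, hj2, hj3⟩ := two_of (fun j => (X : ℝ) / (Real.log X) ^ C ≤
        (count (a ^ j) (b ^ j) (rhs a b (κ * l + h) j) (X / B₂) X : ℝ))
        {0, 1, 3, 4} 4 (by decide) h8
      refine ⟨j, hj1, by rw [R, if_pos h7]; exact hj2, hj3.trans ?_⟩
      rw [Nat.cast_le]
      exact count_mono _ _ _ (hmono hB₂ (le_max_right _ _))
    · left
      refine ⟨h3, rough_prime h4, h5, local_three (by decide) a b _
        fun h9 h10 => absurd ⟨h9, h10⟩ h7, fun h8 => h6 ?_⟩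
      obtain ⟨j, hj1, hj2, hj3⟩ := two_of (fun j => (X : ℝ) / (Real.log X) ^ C ≤
        (count (a ^ j) (b ^ j) (rhs a b (κ * l + h) j) (X / B₁) X : ℝ))
        {0, 1, 2, 3} 3 (by decide) h8
      refine ⟨j, hj1, by rw [R, if_neg h7]; exact hj2, hj3.trans ?_⟩
      rw [Nat.cast_le]
      exact count_mono _ _ _ (hmono hB₁ (le_max_left _ _))

end Pool.Agent.Results.MP_bf63dc_nt.AlmostAllPrimeConstants
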