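import Mathlib
import Pool.Agent.H42.NP.Iso

/-!
# Isolated prime solutions of a third of the iterated equations, in long narrow arithmetic progressions

The `j`-th iterate `p` of `q` under the map `x ↦ (b x + c) / a` is given by the iterated equation
`a^j p - b^j q = c (a^(j-1) + a^(j-2) b + ... + b^(j-1))`, which satisfies the hypotheses of the question if
`a p - b q = c` does; the question is whether the one with `j = 1` has infinitely many prime solutions. For
EVERY triple `(a, b, c)` of the question and every distance `R`, in every sufficiently long window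
`u < j ≤ u + T` at least `(1 / 3 - ε) T` of ALL the exponents `j` have the following property. For every
length `l` there are arithmetic progressions of `l` primes `q`, whose common difference is at most a power
of `log q`, such that for all of them the `j`-th equation has a prime solution `p` (so that the `p` form a
progression, too), while the orbit of `q` contains no other prime near `q` and `p` or between them: no
equation with an exponent `< j` has a prime solution with this `q`, the next `R` iterates of `p` are not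
prime, and `q` is none of the first `R` iterates of a prime. For arbitrarily large `x` there are at least
`x / (log x)^B` such progressions with the same difference and `q ≤ x`.

This is the analogue, for every triple, of Pintz's theorem that for some `h` there are arbitrarily long
progressions of primes `q` such that `q + h` is the next prime. The starting hand-ins have the proportion
`1 / 3` for infinitely many solutions (`ThirdOfAllExponents`) without progressions.

Proof: the coloured Maynard-Tao theorem with the constant `18 / 5` with exact sets of primes along narrow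
progressions (`Pool.Agent.Y827.RO.bigE`), congruences which remove all the other members of an orbit, as in
`Pool.Agent.V11150.RatH`, and the theorem on four classes (`Pool.Agent.W432.UB.main`).
-/

set_option autoImplicit false

namespace Pool.Agent.Results.MP_bf63dc_nt.IsolatedProgressions

open Finset Filter

/-- the hypotheses of the question -/
def Adm (a b : ℕ) (c : ℤ) : Prop :=
  1 ≤ a ∧ 1 ≤ b ∧ c ≠ 0 ∧ IsCoprime (a : ℤ) b ∧ IsCoprime (a : ℤ) c ∧ IsCoprime (b : ℤ) c ∧
    ¬ (Odd a ∧ Odd b ∧ Odd c)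

/-- the right-hand side of the `j`-th iterated equation -/
def rhs (a b : ℕ) (c : ℤ) (j : ℕ) : ℤ := c * ∑ i ∈ range j, (a : ℤ) ^ i * (b : ℤ) ^ (j - 1 - i)

/-- `(p, q)` is a solution of the `j`-th iterated equation: `p` is the `j`-th iterate of `q` -/
def Eqn (a b : ℕ) (c : ℤ) (j p q : ℕ) : Prop :=
  (a : ℤ) ^ j * p - (b : ℤ) ^ j * q = rhs a b c j

/-- `q` is a prime and the `j`-th equation has a prime solution `p`; no equation with an exponent `< j` has
a prime solution with this `q`; the first `R` iterates of `p` are not prime, and `q` is none of the first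
`R` iterates of a prime -/
def Isolated (R : ℕ) (a b : ℕ) (c : ℤ) (j q : ℕ) : Prop :=
  q.Prime ∧ ∃ p : ℕ, p.Prime ∧ Eqn a b c j p q ∧
    (∀ i, 0 < i → i < j → ∀ p' : ℕ, p'.Prime → ¬ Eqn a b c i p' q) ∧
    ∀ i, 0 < i → i ≤ R → (∀ p' : ℕ, p'.Prime → ¬ Eqn a b c i p' p) ∧
      ∀ q' : ℕ, q'.Prime → ¬ Eqn a b c i q q'

/-- many narrow progressions of every length: for every `l` there is `B` such that for arbitrarily large `x`
there is `1 ≤ d ≤ (log x) ^ B` such that for at least `x / (log x) ^ B` integers `1 ≤ q ≤ x` the numbers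
`q, q + d, ..., q + (l - 1) d` all have the property `X` -/
def InProgressions (X : ℕ → Prop) : Prop :=
  ∀ l : ℕ, ∃ B : ℕ, ∃ᶠ x : ℕ in atTop, ∃ d : ℕ, 1 ≤ d ∧ (d : ℝ) ≤ Real.log x ^ B ∧
    (x : ℝ) / Real.log x ^ B ≤ ({q : ℕ | 1 ≤ q ∧ q ≤ x ∧ ∀ i < l, X (q + i * d)}.ncard : ℝ)

theorem adm_iter {a b : ℕ} {c : ℤ} (h : Adm a b c) {j : ℕ} (hj : 1 ≤ j) :
    Adm (a ^ j) (b ^ j) (rhs a b c j) := by
  obtain ⟨ha, hb, hc, hab, hac, hbc, hpar⟩ := h
  have ha' : (1 : ℤ) ≤ a := by exact_mod_cast ha
  have hb' : (1 : ℤ) ≤ b := by exact_mod_cast hb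
  obtain ⟨h1, h2⟩ := Pool.Agent.V11150.RatL.cj_coprime hab hac hbc hj
  refine ⟨Nat.one_le_pow _ _ ha, Nat.one_le_pow _ _ hb,
    Pool.Agent.V11150.RatL.cj_pos a b c ha' hb' hc hj, ?_, ?_, ?_, ?_⟩
  · push_cast
    exact hab.pow
  · push_cast
    exact h1
  · push_cast
    exact h2
  · rintro ⟨h3, h4, h5⟩
    refine Pool.Agent.V11150.RatL.cj_parity (a := (a : ℤ)) (b := (b : ℤ)) (c := c) ?_ hj ⟨?_, ?_, h5⟩
    · rintro ⟨h6, h7, h8⟩
      exact hpar ⟨by exact_mod_cast h6, by exact_mod_cast h7, h8⟩
    · exact_mod_cast h3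
    · exact_mod_cast h4

theorem result (a b : ℕ) (c : ℤ) (hadm : Adm a b c) (R : ℕ) (ε : ℝ) (hε : 0 < ε) :
    ∃ L : ℕ, ∀ T : ℕ, L ≤ T → ∀ u : ℕ, (1 / 3 - ε) * (T : ℝ) ≤
      ({j : ℕ | u < j ∧ j ≤ u + T ∧ Adm (a ^ j) (b ^ j) (rhs a b c j) ∧
        InProgressions (Isolated R a b c j)}.ncard : ℝ) := by
  have hadm' := hadm
  obtain ⟨ha, hb, hc, hab, hac, hbc, hpar⟩ := hadm
  have ha' : (1 : ℤ) ≤ a := by exact_mod_cast ha
  have hb' : (1 : ℤ) ≤ b := by exact_mod_cast hb
  have hpar' : ¬ (Odd (a : ℤ) ∧ Odd (b : ℤ) ∧ Odd c) := by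
    rintro ⟨h6, h7, h8⟩
    exact hpar ⟨by exact_mod_cast h6, by exact_mod_cast h7, h8⟩
  obtain ⟨L, hL⟩ := Pool.Agent.H42.NP.thirdNar R a b c ha' hb' hc hab hac hbc hpar' ε hε
  refine ⟨L, fun T hT u => (hL T hT u).trans ?_⟩
  rw [Nat.cast_le]
  refine Set.ncard_le_ncard ?_ ((Set.finite_Ioc u (u + T)).subset fun k hk => ⟨hk.1, hk.2.1⟩)
  rintro j ⟨h1, h2, h3⟩
  refine ⟨h1, h2, adm_iter hadm' (by omega), ?_⟩
  intro l
  obtain ⟨B, hB⟩ := (Pool.Agent.H42.NP.nar_iff _).1 h3 l
  refine ⟨B, hB.mono ?_⟩
  rintro x ⟨d, e1, e2, e3⟩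
  exact ⟨d, e1, e2, e3⟩

end Pool.Agent.Results.MP_bf63dc_nt.IsolatedProgressions
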