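import Mathlib
import Pool.Agent.H42.NP.FourIso
import Pool.Agent.H42.NP.Turan
import Pool.Agent.H42.NP.PlaneP

/-!
# The equations `a p - b q = c`: long narrow progressions of isolated prime solutions, for a positive
proportion of the constants `c` for almost a third of all pairs of coefficients of any large finite set,
for a quarter of all triples by weight, for a positive proportion of the triples of every short box and for
a positive proportion of the pairs `(a, b)` for a fixed `c` prime to `6`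

For every `R`:

* (fixed coefficients) for every finite set `U` of positive integers at least `|U| ^ 2 / 3 - |U|` pairs of
  different elements `u`, `u'` of `U` (both orders are counted) are such that for `a = u / (u, u')`,
  `b = u' / (u, u')` or with `u` and `u'` exchanged, and for arbitrarily large `Y`, at least
  `(φ(u) / u) (φ(u') / u') Y / 200` integers `1 ≤ c ≤ Y` make `(a, b, c)` a triple which satisfies the
  hypotheses of the question and is good. For example this is true for two of any four integers (as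
  `16 / 3 - 4 > 0`), and for almost a third of all pairs of primes up to `x`, with `a = u`, `b = u'` (or
  exchanged), as `x → ∞`.
* (logarithmic count) in every box `1 ≤ a, b ≤ X`, `1 ≤ c ≤ Y` with `X ≥ X₀` and `Y ≥ X ^ D` at least a
  quarter of ALL the triples which satisfy the hypotheses of the question are good, when the triple
  `(a, b, c)` has the weight `1 / (a b c)`;
* (natural count) in every box `X < a, b ≤ X + H`, `1 ≤ c ≤ Y` with `C ≤ H`, `C log X ≤ H ≤ X` and
  `Y ≥ C X ^ 2` at least `H ^ 2 Y / 1000` triples, each of them counted once, satisfy the hypotheses of the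
  question and are good. (The box has `H ^ 2 Y` triples; `a` and `b` are taken from an arbitrary interval of
  length at least `C log X`.)
* (fixed constant) for every `r` there are `δ > 0` and `X₁` such that for every `c` prime to `6` with at most
  `r` prime factors (for example `c = 1`) and every `X ≥ X₁` at least `δ X ^ 2` pairs `1 ≤ a, b ≤ X` are such
  that `(a, b, c)` satisfies the hypotheses of the question and is good.

Good means: for EVERY length `l` there are arithmetic progressions `q, q + d, ..., q + (l - 1) d` of primes,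
with a common difference `d` at most a power of `log x`, such that for all of its members `q'` the number
`p' = (b q' + c) / a` is a prime too (these `p'` form a progression, too), and `(p', q')` is isolated:

* among the first `R` iterates of `p'` under the map `x ↦ (b x + c) / a`, which takes `q'` to `p'`, there is
  no prime, and `q'` is none of the first `R` iterates of a prime: `q', p'` are the only primes in a long
  piece of the orbit;
* no third prime `r` satisfies an equation `w r = u q' + v` or `w r = u p' + v` with `1 ≤ u, w ≤ R` and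
  `|v| ≤ R`: with the possible exception of the equation between `p'` and `q'` themselves, no equation of the
  question (nor any other linear equation) with coefficients at most `R` has a prime solution which contains
  `q'` or `p'`. For `u = w = 1`: there is no third prime at a distance at most `R` from `q'` or `p'`.

The number of such `q ≤ x` with the same `d` is at least `x / (log x) ^ B`, for arbitrarily large `x`.
Moreover, for every fixed length `l` the three last counts are true at EVERY large scale `x`, with one exponent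
`B` for all the triples of the box. (The case `c < 0` is the same with `p` and `q` exchanged.)

Proof. The starting hand-in `QuarterOfTriples` (the weighted quarter for the existence of many prime
solutions, without progressions and without isolation) is deduced from an abstract form
(`Pool.Agent.K7.H63.TQ.quarter_abs`), in which the relation between two linear forms is arbitrary, as long as
it holds for two forms of different classes among any four classes of `K` forms. Here this is proved for the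
relation `at the terms of many narrow progressions both forms are prime and isolated`. From four classes of
very many forms one selects, by counting, four classes of `K` forms with no coincidences: no form of the
family is one of the `R` next members of the orbit determined by two others, or related to another one by
an equation with small coefficients. Then there is a progression in which no form of the family gets a
common divisor with the modulus while all the neighbours of all the pairs are removed by congruences, except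
for those which are proportional to a form of the family, and these are never prime, since they are not
coincidences (`Pool.Agent.H42.NP.block_all`). In this progression one applies the coloured Maynard-Tao
theorem with the constant `18 / 5` and a relative Szemeredi theorem (`Pool.Agent.Y827.RO.bigE`, `narE`).
For the natural count (`Pool.Agent.H42.NP.nat_abs`) one takes the forms `u n + v` with `X < u ≤ X + H`,
`v ≤ Y / (X + H)`, `u` and `v` coprime and prime to `6`. A third of the pairs of forms are related; the pairs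
with a common factor of the leading coefficients are less than an eighth of all pairs, and every triple comes
from few pairs, since `v` is determined modulo `u` and there are two classes modulo `6`. For four fixed
leading coefficients (`Pool.Agent.H42.NP.four_abs`) with the same number `M` of constant terms each, at least
`16 / 3 - ε` of the `16` blocks of `M ^ 2` pairs are related, and only four blocks have equal coefficients;
the theorem of Turan gives the statement on `U`. For a fixed `c` (`Pool.Agent.H42.NP.planeP`, after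
`FixedConstantUniform` of the library, where the solutions are infinitely many only) one takes the forms
`(A + f C) n + (B + f E)`, where `A E - B C = c` and `f` runs through a set in which the differences divide the
elements; the passage to every large scale uses an ultrafilter on a sequence of bad scales.
-/

set_option autoImplicit false

namespace Pool.Agent.Results.MP_bf63dc_nt.IsolatedQuarter

open Finset Filter

/-- the hypotheses of the question -/
def Adm (a b : ℕ) (c : ℤ) : Prop :=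
  1 ≤ a ∧ 1 ≤ b ∧ c ≠ 0 ∧ IsCoprime (a : ℤ) b ∧ IsCoprime (a : ℤ) c ∧ IsCoprime (b : ℤ) c ∧
    ¬ (Odd a ∧ Odd b ∧ Odd c)

/-- `s` is the `i`-th iterate of `r` under `x ↦ (b x + c) / a` -/
def Iterate (a b : ℕ) (c : ℤ) (i r s : ℕ) : Prop :=
  (a : ℤ) ^ i * s - (b : ℤ) ^ i * r = c * ∑ j ∈ range i, (a : ℤ) ^ j * (b : ℤ) ^ (i - 1 - j)

/-- `q` is a prime and `a p - b q = c` for a prime `p`; the first `R` iterates of `p` under
`x ↦ (b x + c) / a` are not prime, and `q` is none of the first `R` iterates of a prime; no prime other than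
`q`, `p` is related to `q` or to `p` by a linear equation `w r = u q + v`, `w r = u p + v` with
`1 ≤ u, w ≤ R`, `|v| ≤ R` -/
def Isolated (R : ℕ) (a b : ℕ) (c : ℤ) (q : ℕ) : Prop :=
  q.Prime ∧ ∃ p : ℕ, p.Prime ∧ (a : ℤ) * p - b * q = c ∧
    (∀ i : ℕ, 0 < i → i ≤ R → ∀ r : ℕ, r.Prime → ¬ Iterate a b c i p r ∧ ¬ Iterate a b c i r q) ∧
    ∀ w u : ℕ, (1 ≤ w ∧ w ≤ R) → (1 ≤ u ∧ u ≤ R) → ∀ v : ℤ, |v| ≤ R → ∀ r : ℕ, r.Prime →
      ((w : ℤ) * r = u * q + v ∨ (w : ℤ) * r = u * p + v) → r = q ∨ r = p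

/-- for some `1 ≤ d ≤ (log x) ^ B` there are at least `x / (log x) ^ B` integers `1 ≤ q ≤ x` such that
`q, q + d, ..., q + (l - 1) d` are primes which belong to isolated prime solutions -/
def Progressions (R l B : ℕ) (x : ℕ) (a b : ℕ) (c : ℤ) : Prop :=
  ∃ d : ℕ, 1 ≤ d ∧ (d : ℝ) ≤ Real.log x ^ B ∧
    (x : ℝ) / Real.log x ^ B ≤ ({q : ℕ | 1 ≤ q ∧ q ≤ x ∧ ∀ i < l, Isolated R a b c (q + i * d)}.ncard : ℝ)

/-- the hypotheses of the question, and many narrow progressions of isolated prime solutions of every length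
`l`, up to arbitrarily large `x` -/
def Good (R a b : ℕ) (c : ℤ) : Prop :=
  Adm a b c ∧ ∀ l : ℕ, ∃ B : ℕ, ∃ᶠ x : ℕ in atTop, Progressions R l B x a b c

open Classical in
/-- the sum of the weights `1 / (a b c)` of the triples `(a, b, c)` with `1 ≤ a, b ≤ X`, `1 ≤ c ≤ Y` and
the property `P` -/
noncomputable def weight (X Y : ℕ) (P : ℕ → ℕ → ℤ → Prop) : ℝ :=
  ∑ a ∈ Icc 1 X, ∑ b ∈ Icc 1 X, ∑ c ∈ Icc 1 Y, if P a b (c : ℤ) then 1 / ((a : ℝ) * b * c) else 0

/-- the number of the triples `(a, b, c)` with `X < a, b ≤ X + H`, `1 ≤ c ≤ Y` and the property `P` -/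
noncomputable def count (X H Y : ℕ) (P : ℕ → ℕ → ℤ → Prop) : ℕ :=
  {T : ℕ × ℕ × ℕ | (X < T.1 ∧ T.1 ≤ X + H) ∧ (X < T.2.1 ∧ T.2.1 ≤ X + H) ∧ (1 ≤ T.2.2 ∧ T.2.2 ≤ Y) ∧
    P T.1 T.2.1 (T.2.2 : ℤ)}.ncard

/-- the number of the integers `1 ≤ c ≤ Y` with the property `P` -/
noncomputable def constants (Y : ℕ) (P : ℤ → Prop) : ℕ := {c : ℕ | (1 ≤ c ∧ c ≤ Y) ∧ P (c : ℤ)}.ncard

/-- the number of the pairs `(a, b)` with `1 ≤ a, b ≤ X` and the property `P` -/
noncomputable def pairs (X : ℕ) (P : ℕ → ℕ → Prop) : ℕ :=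
  {x : ℕ × ℕ | (1 ≤ x.1 ∧ x.1 ≤ X) ∧ (1 ≤ x.2 ∧ x.2 ≤ X) ∧ P x.1 x.2}.ncard

/-- for `a = u / (u, u')`, `b = u' / (u, u')` and arbitrarily large `Y` at least
`(φ(u) / u) (φ(u') / u') Y / 200` integers `1 ≤ c ≤ Y` are such that `(a, b, c)` is good -/
def Dense (R u u' : ℕ) : Prop :=
  ∃ᶠ Y : ℕ in atTop, (u.totient : ℝ) / u * (u'.totient / u') * Y / 200 ≤
    constants Y (Good R (u / u.gcd u') (u' / u.gcd u'))

theorem weight_eq (X Y : ℕ) (P : ℕ → ℕ → ℤ → Prop) (Q : ℕ × ℕ × ℕ → Prop) [DecidablePred Q]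
    (h : ∀ a b c : ℕ, 1 ≤ a → 1 ≤ b → 1 ≤ c → (P a b (c : ℤ) ↔ Q (a, b, c))) :
    weight X Y P = ∑ T ∈ (Pool.Agent.K7.H63.TQ.Rg X 1 Y).filter Q, Pool.Agent.K7.H63.TQ.tt T := by
  unfold weight Pool.Agent.K7.H63.TQ.Rg
  rw [Finset.sum_filter, Finset.sum_product]
  apply Finset.sum_congr rfl
  intro a ha
  rw [Finset.sum_product]
  apply Finset.sum_congr rfl
  intro b hb
  apply Finset.sum_congr rfl
  intro c hc
  have h1 := h a b c (mem_Icc.1 ha).1 (mem_Icc.1 hb).1 (mem_Icc.1 hc).1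
  by_cases h2 : Q (a, b, c)
  · rw [if_pos (h1.2 h2), if_pos h2]; rfl
  · rw [if_neg (fun h3 => h2 (h1.1 h3)), if_neg h2]

theorem adm_iff (a b c : ℕ) (_ha : 1 ≤ a) (_hb : 1 ≤ b) (hc : 1 ≤ c) :
    Adm a b (c : ℤ) ↔ Pool.Agent.K7.H63.TQ.Ad (a, b, c) := by
  unfold Adm Pool.Agent.K7.H63.TQ.Ad Pool.Agent.K7.H63.TQ.AdmT
  rw [Nat.isCoprime_iff_coprime, Nat.isCoprime_iff_coprime, Nat.isCoprime_iff_coprime, Int.odd_coe_nat]
  constructor
  · rintro ⟨h1, h2, -, h4, h5, h6, h7⟩
    exact ⟨h1, h2, hc, h4, h5, h6, h7⟩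
  · rintro ⟨h1, h2, h3, h4, h5, h6, h7⟩
    exact ⟨h1, h2, by exact_mod_cast (by omega : c ≠ 0), h4, h5, h6, h7⟩

theorem isolated_iff (R a b : ℕ) (c : ℤ) (q : ℕ) :
    Isolated R a b c q ↔ Pool.Agent.H42.NP.IsoSol R a b c q := Iff.rfl

theorem progressions_of {R l B x a b : ℕ} {c : ℤ}
    (h : Pool.Agent.H42.NP.NarN (Pool.Agent.H42.NP.IsoSol R a b c) l B x) :
    Progressions R l B x a b c := h

theorem count_ge (X H Y : ℕ) (P : ℕ → ℕ → ℤ → Prop) (S : Finset (ℕ × ℕ × ℕ))
    (hS : ∀ T ∈ S, T ∈ Pool.Agent.H42.NP.Bx X H Y ∧ P T.1 T.2.1 (T.2.2 : ℤ)) : S.card ≤ count X H Y P := by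
  unfold count
  rw [← Set.ncard_coe_finset]
  apply Set.ncard_le_ncard
  · intro T hT
    obtain ⟨h1, h2⟩ := hS T (mem_coe.1 hT)
    obtain ⟨h3, h4⟩ := mem_product.1 h1
    obtain ⟨h5, h6⟩ := mem_product.1 h4
    exact ⟨mem_Ioc.1 h3, mem_Ioc.1 h5, mem_Icc.1 h6, h2⟩
  · apply Set.Finite.subset (Finset.finite_toSet (Pool.Agent.H42.NP.Bx X H Y))
    rintro T ⟨h1, h2, h3, -⟩
    exact mem_coe.2 (mem_product.2 ⟨mem_Ioc.2 h1, mem_product.2 ⟨mem_Ioc.2 h2, mem_Icc.2 h3⟩⟩)

theorem weight_part (R : ℕ) : ∃ X₀ D : ℕ, ∀ X : ℕ, X₀ ≤ X → ∀ Y : ℕ, X ^ D ≤ Y →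
    1 / 4 * weight X Y Adm ≤ weight X Y (Good R) ∧
    ∀ l : ℕ, ∃ B : ℕ, ∀ᶠ x : ℕ in atTop,
      1 / 4 * weight X Y Adm ≤ weight X Y (fun a b c => Adm a b c ∧ Progressions R l B x a b c) := by
  classical
  obtain ⟨X1, C1, hX1, H1⟩ := Pool.Agent.H42.NP.quarter_iso R
  obtain ⟨X2, C2, hX2, H2⟩ := Pool.Agent.H42.NP.quarter_iso_scale R
  refine ⟨max X1 X2, max C1 C2, fun X hX Y hY => ⟨?_, fun l => ?_⟩⟩
  · have hX1' : X1 ≤ X := (le_max_left _ _).trans hX
    have hY1 : X ^ C1 ≤ Y := (Nat.pow_le_pow_right (by omega) (le_max_left _ _)).trans hY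
    have h1 := H1 X hX1' Y hY1
    rw [weight_eq X Y Adm Pool.Agent.K7.H63.TQ.Ad (fun a b c ha hb hc => adm_iff a b c ha hb hc)]
    refine h1.trans ?_
    rw [weight_eq X Y (Good R) (fun T => Pool.Agent.K7.H63.TQ.Ad T ∧ Good R T.1 T.2.1 (T.2.2 : ℤ))
      (fun a b c ha hb hc => ⟨fun h => ⟨(adm_iff a b c ha hb hc).1 h.1, h⟩, fun h => h.2⟩)]
    apply Finset.sum_le_sum_of_subset_of_nonneg
    · intro T hT
      obtain ⟨h2, h3, h4⟩ := mem_filter.1 hT
      refine mem_filter.2 ⟨h2, h3, (adm_iff T.1 T.2.1 T.2.2 h3.1 h3.2.1 h3.2.2.1).2 h3, fun l => ?_⟩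
      obtain ⟨B, hB⟩ := (Pool.Agent.H42.NP.nar_iff _).1 h4 l
      exact ⟨B, hB.mono fun x hx => progressions_of hx⟩
    · intro T _ _; exact Pool.Agent.K7.H63.TQ.tt_nonneg T
  · have hX2' : X2 ≤ X := (le_max_right _ _).trans hX
    have hY2 : X ^ C2 ≤ Y := (Nat.pow_le_pow_right (by omega) (le_max_right _ _)).trans hY
    obtain ⟨B, hB⟩ := H2 X hX2' Y hY2 l
    refine ⟨B, ?_⟩
    filter_upwards [hB] with x h1
    rw [weight_eq X Y Adm Pool.Agent.K7.H63.TQ.Ad (fun a b c ha hb hc => adm_iff a b c ha hb hc)]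
    refine h1.trans (le_of_eq ?_)
    rw [weight_eq X Y _ (fun T => Pool.Agent.K7.H63.TQ.Ad T ∧
        Pool.Agent.H42.NP.NarN (Pool.Agent.H42.NP.IsoSol R T.1 T.2.1 (T.2.2 : ℤ)) l B x)
      (fun a b c ha hb hc => by
        show _ ∧ _ ↔ _ ∧ _
        rw [adm_iff a b c ha hb hc]
        exact Iff.rfl)]

theorem count_part (R : ℕ) : ∃ C : ℕ, ∀ X H Y : ℕ, C ≤ H → (C : ℝ) * Real.log X ≤ H → H ≤ X →
    C * X ^ 2 ≤ Y → (H : ℝ) ^ 2 * Y / 1000 ≤ count X H Y (Good R) ∧
    ∀ l : ℕ, ∃ B : ℕ, ∀ᶠ x : ℕ in atTop,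
      (H : ℝ) ^ 2 * Y / 1000 ≤ count X H Y (fun a b c => Adm a b c ∧ Progressions R l B x a b c) := by
  classical
  obtain ⟨C1, hC1, H1⟩ := Pool.Agent.H42.NP.nat_iso R
  obtain ⟨C2, hC2, H2⟩ := Pool.Agent.H42.NP.nat_iso_scale R
  refine ⟨max C1 C2, fun X H Y hH hlog hHX hY => ?_⟩
  have hl0 : 0 ≤ Real.log X := Real.log_natCast_nonneg X
  have hlog1 : (C1 : ℝ) * Real.log X ≤ H := by
    refine le_trans (mul_le_mul_of_nonneg_right ?_ hl0) hlog
    exact_mod_cast le_max_left C1 C2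
  have hlog2 : (C2 : ℝ) * Real.log X ≤ H := by
    refine le_trans (mul_le_mul_of_nonneg_right ?_ hl0) hlog
    exact_mod_cast le_max_right C1 C2
  have hY1 : C1 * X ^ 2 ≤ Y := (Nat.mul_le_mul_right _ (le_max_left C1 C2)).trans hY
  have hY2 : C2 * X ^ 2 ≤ Y := (Nat.mul_le_mul_right _ (le_max_right C1 C2)).trans hY
  refine ⟨?_, fun l => ?_⟩
  · refine (H1 X H Y ((le_max_left _ _).trans hH) hlog1 hHX hY1).trans ?_
    refine Nat.cast_le.2 (count_ge X H Y (Good R) _ ?_)
    intro T hT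
    obtain ⟨h2, h3, h4⟩ := mem_filter.1 hT
    refine ⟨h2, (adm_iff T.1 T.2.1 T.2.2 h3.1 h3.2.1 h3.2.2.1).2 h3, fun l => ?_⟩
    obtain ⟨B, hB⟩ := (Pool.Agent.H42.NP.nar_iff _).1 h4 l
    exact ⟨B, hB.mono fun x hx => progressions_of hx⟩
  · obtain ⟨B, hB⟩ := H2 X H Y ((le_max_right _ _).trans hH) hlog2 hHX hY2 l
    refine ⟨B, ?_⟩
    filter_upwards [hB] with x hx
    refine hx.trans ?_
    refine Nat.cast_le.2 (count_ge X H Y (fun a b c => Adm a b c ∧ Progressions R l B x a b c) _ ?_)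
    intro T hT
    obtain ⟨h2, h3, h4⟩ := mem_filter.1 hT
    exact ⟨h2, (adm_iff T.1 T.2.1 T.2.2 h3.1 h3.2.1 h3.2.2.1).2 h3, progressions_of h4⟩

theorem four_part (R : ℕ) (u : Fin 4 → ℕ) (hu : ∀ i, 1 ≤ u i) (hinj : Function.Injective u) :
    ∃ i j : Fin 4, i ≠ j ∧ Dense R (u i) (u j) := by
  classical
  obtain ⟨i, j, hij, h⟩ := Pool.Agent.H42.NP.four_iso R u hu hinj
  refine ⟨i, j, hij, h.mono fun Y hY => ?_⟩
  have e : ((u i).totient : ℝ) / u i * ((u j).totient / u j) * Y / 200 =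
      ((u i).totient : ℝ) * (u j).totient / ((u i : ℝ) * u j) * Y / 200 := by
    rw [div_mul_div_comm]
  rw [e]
  refine hY.trans (Nat.cast_le.2 ?_)
  unfold constants
  rw [← Set.ncard_coe_finset]
  apply Set.ncard_le_ncard
  · intro c hc
    obtain ⟨h1, h2, h3⟩ := mem_filter.1 (mem_coe.1 hc)
    refine ⟨mem_Icc.1 h1, (adm_iff _ _ c h2.1 h2.2.1 h2.2.2.1).2 h2, fun l => ?_⟩
    obtain ⟨B, hB⟩ := (Pool.Agent.H42.NP.nar_iff _).1 h3 l
    exact ⟨B, hB.mono fun x hx => progressions_of hx⟩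
  · apply Set.Finite.subset (Finset.finite_toSet (Icc 1 Y))
    rintro c ⟨h1, -⟩
    exact mem_coe.2 (mem_Icc.2 h1)

theorem pair_part (R : ℕ) (U : Finset ℕ) (hU : ∀ u ∈ U, 1 ≤ u) : (U.card : ℝ) ^ 2 / 3 - U.card ≤
    {x : ℕ × ℕ | (x.1 ∈ U ∧ x.2 ∈ U ∧ x.1 ≠ x.2) ∧ (Dense R x.1 x.2 ∨ Dense R x.2 x.1)}.ncard := by
  refine Pool.Agent.H42.NP.turan_ncard U (fun x y => Dense R x y ∨ Dense R y x)
    (fun x y h => h.symm) fun u hu hinj => ?_
  obtain ⟨i, j, hij, h⟩ := four_part R u (fun i => hU _ (hu i)) hinj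
  exact ⟨i, j, hij, Or.inl h⟩

theorem ne_zero_of {c : ℤ} (hc : IsCoprime c 6) : c ≠ 0 := by
  rintro rfl
  have h1 : IsUnit (6 : ℤ) := isCoprime_zero_left.1 hc
  rcases Int.isUnit_iff.1 h1 with h2 | h2 <;> norm_num at h2

theorem of_pair {P : ℕ → ℕ → ℤ → Prop} {T a b : ℕ} {c : ℤ} (hc : IsCoprime c 6) (ha : 1 ≤ a) (hb : 1 ≤ b)
    (h : Pool.Agent.H42.NP.GoodPairP P T c a b) : Adm a b c ∧ P a b c := by
  obtain ⟨t, ht, -, htp, hab, hac, hbc, hodd, hP⟩ := h
  have ht1 : t = 1 := by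
    by_contra hne
    obtain ⟨l, hl, hlt⟩ := Nat.exists_prime_and_dvd hne
    obtain ⟨h1, h2⟩ := htp l hl hlt
    have h3 : (l : ℤ) ∣ 6 := by
      have h4 := hl.two_le
      interval_cases l <;> norm_num
    exact (Nat.prime_iff_prime_int.1 hl).not_isUnit (hc.isUnit_of_dvd' h2 h3)
  subst ht1
  rw [Nat.cast_one, one_mul] at hac hbc hodd hP
  exact ⟨⟨ha, hb, ne_zero_of hc, Nat.isCoprime_iff_coprime.2 hab, hac, hbc, hodd⟩, hP⟩

theorem pairs_ge (X : ℕ) (P : ℕ → ℕ → Prop) (S : Finset (ℕ × ℕ))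
    (hS : ∀ z ∈ S, z ∈ Icc 1 X ×ˢ Icc 1 X ∧ P z.1 z.2) : S.card ≤ pairs X P := by
  unfold pairs
  rw [← Set.ncard_coe_finset]
  apply Set.ncard_le_ncard
  · intro x hx
    obtain ⟨h1, h2⟩ := hS x (mem_coe.1 hx)
    obtain ⟨h3, h4⟩ := mem_product.1 h1
    exact ⟨mem_Icc.1 h3, mem_Icc.1 h4, h2⟩
  · apply Set.Finite.subset (Finset.finite_toSet (Icc 1 X ×ˢ Icc 1 X))
    rintro x ⟨h1, h2, -⟩
    exact mem_coe.2 (mem_product.2 ⟨mem_Icc.2 h1, mem_Icc.2 h2⟩)

theorem fixed_part (R r : ℕ) : ∃ (δ : ℝ) (X₁ : ℕ), 0 < δ ∧ ∀ c : ℤ, IsCoprime c 6 →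
    c.natAbs.primeFactors.card ≤ r → ∀ X : ℕ, X₁ ≤ X →
      δ * (X : ℝ) ^ 2 ≤ pairs X (fun a b => Good R a b c) ∧
      ∀ l : ℕ, ∃ B : ℕ, ∀ᶠ x : ℕ in atTop,
        δ * (X : ℝ) ^ 2 ≤ pairs X (fun a b => Adm a b c ∧ Progressions R l B x a b c) := by
  classical
  obtain ⟨T1, δ1, X1, hδ1, H1⟩ := Pool.Agent.H42.NP.plane_iso R r
  obtain ⟨T2, δ2, X2, hδ2, H2⟩ := Pool.Agent.H42.NP.plane_iso_scale R r
  refine ⟨min δ1 δ2, max X1 X2, lt_min hδ1 hδ2, fun c hc hr X hX => ⟨?_, fun l => ?_⟩⟩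
  · have hX2 : (0 : ℝ) ≤ (X : ℝ) ^ 2 := by positivity
    refine (mul_le_mul_of_nonneg_right (min_le_left _ _) hX2).trans
      ((H1 c (ne_zero_of hc) hr X ((le_max_left _ _).trans hX)
        ((Icc 1 X ×ˢ Icc 1 X).filter (fun x => Good R x.1 x.2 c)) ?_).trans
        (Nat.cast_le.2 (pairs_ge X (fun a b => Good R a b c) _ fun z hz => mem_filter.1 hz)))
    intro a b ha haX hb hbX h
    obtain ⟨h1, h2⟩ := of_pair hc ha hb h
    refine mem_filter.2 ⟨mem_product.2 ⟨mem_Icc.2 ⟨ha, haX⟩, mem_Icc.2 ⟨hb, hbX⟩⟩, h1, fun l => ?_⟩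
    obtain ⟨B, hB⟩ := (Pool.Agent.H42.NP.nar_iff _).1 h2 l
    exact ⟨B, hB.mono fun x hx => progressions_of hx⟩
  · have hX2 : (0 : ℝ) ≤ (X : ℝ) ^ 2 := by positivity
    obtain ⟨B, hB⟩ := H2 c (ne_zero_of hc) hr X ((le_max_right _ _).trans hX) l
    refine ⟨B, ?_⟩
    filter_upwards [hB] with x hx
    refine (mul_le_mul_of_nonneg_right (min_le_right _ _) hX2).trans (hx.trans ?_)
    refine Nat.cast_le.2 (pairs_ge X (fun a b => Adm a b c ∧ Progressions R l B x a b c) _ ?_)
    intro z hz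
    obtain ⟨h1, h2⟩ := mem_filter.1 hz
    obtain ⟨h3, h4⟩ := mem_product.1 h1
    obtain ⟨h5, h6⟩ := of_pair hc (mem_Icc.1 h3).1 (mem_Icc.1 h4).1 h2
    exact ⟨h1, h5, progressions_of h6⟩

theorem result : ∀ R : ℕ,
    (∀ U : Finset ℕ, (∀ u ∈ U, 1 ≤ u) → (U.card : ℝ) ^ 2 / 3 - U.card ≤
      {x : ℕ × ℕ | (x.1 ∈ U ∧ x.2 ∈ U ∧ x.1 ≠ x.2) ∧ (Dense R x.1 x.2 ∨ Dense R x.2 x.1)}.ncard) ∧
    (∃ X₀ D : ℕ, ∀ X : ℕ, X₀ ≤ X → ∀ Y : ℕ, X ^ D ≤ Y →
      1 / 4 * weight X Y Adm ≤ weight X Y (Good R) ∧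
      ∀ l : ℕ, ∃ B : ℕ, ∀ᶠ x : ℕ in atTop,
        1 / 4 * weight X Y Adm ≤ weight X Y (fun a b c => Adm a b c ∧ Progressions R l B x a b c)) ∧
    (∃ C : ℕ, ∀ X H Y : ℕ, C ≤ H → (C : ℝ) * Real.log X ≤ H → H ≤ X → C * X ^ 2 ≤ Y →
      (H : ℝ) ^ 2 * Y / 1000 ≤ count X H Y (Good R) ∧
      ∀ l : ℕ, ∃ B : ℕ, ∀ᶠ x : ℕ in atTop,
        (H : ℝ) ^ 2 * Y / 1000 ≤ count X H Y (fun a b c => Adm a b c ∧ Progressions R l B x a b c)) ∧
    ∀ r : ℕ, ∃ (δ : ℝ) (X₁ : ℕ), 0 < δ ∧ ∀ c : ℤ, IsCoprime c 6 → c.natAbs.primeFactors.card ≤ r →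
      ∀ X : ℕ, X₁ ≤ X →
        δ * (X : ℝ) ^ 2 ≤ pairs X (fun a b => Good R a b c) ∧
        ∀ l : ℕ, ∃ B : ℕ, ∀ᶠ x : ℕ in atTop,
          δ * (X : ℝ) ^ 2 ≤ pairs X (fun a b => Adm a b c ∧ Progressions R l B x a b c) := by
  intro R
  exact ⟨fun U hU => pair_part R U hU, weight_part R, count_part R, fun r => fixed_part R r⟩

end Pool.Agent.Results.MP_bf63dc_nt.IsolatedQuarter
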